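import Pool.Agent.L7h71.UN.Stm

set_option autoImplicit false

/-!
# Project UN: the size of connected types (`BND`)
-/

namespace Pool.Agent.L7h46.UN

open Set Filter Function Pool.Agent.L7h71.UN

/-! ### good sets -/

section sets

variable {Ω Ω' ι κ : Type}

/-- the range of a good finite tuple -/
def GoodSet (G : Subgroup (Equiv.Perm Ω)) (A : Set Ω) : Prop :=
  ∃ (m : ℕ) (b : Fin m → Ω), Good G b ∧ range b = A

/-- a minimal nonempty good set -/
def MinG (G : Subgroup (Equiv.Perm Ω)) (A : Set Ω) : Prop :=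
  GoodSet G A ∧ A.Nonempty ∧ ∀ B, GoodSet G B → B.Nonempty → B ⊆ A → B = A

theorem goodSet_of [Finite ι] {G : Subgroup (Equiv.Perm Ω)} {b : ι → Ω} (h : Good G b) :
    GoodSet G (range b) := by
  obtain ⟨m, ⟨e⟩⟩ := Finite.exists_equiv_fin ι
  refine ⟨m, b ∘ e.symm, ⟨h.1.comp e.symm.injective, fun Z => ?_⟩, ?_⟩
  · obtain ⟨b', h1, h2, g, hg, h3, h4, h5⟩ := h.2 Z
    refine ⟨b' ∘ e.symm, fun i => h1 _, fun i j => h2 _ _, g, hg, fun i => h3 _, fun i => h4 _,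
      fun x hx hx' => h5 x (fun i => ?_) fun i => ?_⟩
    · have := hx (e i)
      simpa using this
    · have := hx' (e i)
      simpa using this
  · rw [range_comp, e.symm.range_eq_univ, image_univ]

theorem aut_conj {r : ℕ} {K : Type} {N : St r K Ω} {N' : St r K Ω'} {s : Set Ω} {s' : Set Ω'}
    (e : Ω ≃ Ω') (he : ∀ x : Fin r → Ω, N' (e ∘ x) = N x) (hs : ∀ w, e w ∈ s' → w ∈ s)
    {g : Equiv.Perm Ω} (hg : g ∈ Aut N s) : e.permCongr g ∈ Aut N' s' := by
  rw [mem_aut] at hg ⊢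
  refine ⟨fun y => ?_, fun w hw => ?_⟩
  · have h1 : (e.permCongr g) ∘ y = e ∘ (g ∘ (e.symm ∘ y)) := by
      funext i
      simp [Equiv.permCongr_apply]
    have h2 : y = e ∘ (e.symm ∘ y) := by
      funext i
      simp
    rw [h1, he, hg.1]
    conv_rhs => rw [h2]
    rw [he]
  · rw [Equiv.permCongr_apply, hg.2 _ (hs _ (by simpa using hw)), Equiv.apply_symm_apply]

theorem good_map {G : Subgroup (Equiv.Perm Ω)} {G' : Subgroup (Equiv.Perm Ω')} (e : Ω ≃ Ω')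
    (hG : ∀ g ∈ G, e.permCongr g ∈ G') {b : ι → Ω} (h : Good G b) : Good G' (e ∘ b) := by
  classical
  refine ⟨e.injective.comp h.1, fun Z => ?_⟩
  obtain ⟨b', h1, h2, g, hg, h3, h4, h5⟩ := h.2 (Z.image e.symm)
  refine ⟨e ∘ b', fun i hi => h1 i ?_, fun i j hij => h2 i j (e.injective hij), e.permCongr g,
    hG g hg, fun i => ?_, fun i => ?_, fun x hx hx' => ?_⟩
  · rw [Finset.mem_image]
    exact ⟨e (b' i), hi, by simp⟩
  · simp [Equiv.permCongr_apply, h3]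
  · simp [Equiv.permCongr_apply, h4]
  · rw [Equiv.permCongr_apply, h5, Equiv.apply_symm_apply]
    · intro i hi
      exact hx i (by rw [comp_apply, ← hi, Equiv.apply_symm_apply])
    · intro i hi
      exact hx' i (by rw [comp_apply, ← hi, Equiv.apply_symm_apply])

theorem goodSet_map {G : Subgroup (Equiv.Perm Ω)} {G' : Subgroup (Equiv.Perm Ω')} (e : Ω ≃ Ω')
    (hG : ∀ g ∈ G, e.permCongr g ∈ G') {A : Set Ω} (h : GoodSet G A) : GoodSet G' (e '' A) := by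
  obtain ⟨m, b, h1, rfl⟩ := h
  exact ⟨m, e ∘ b, good_map e hG h1, range_comp e b⟩

theorem minG_map {G : Subgroup (Equiv.Perm Ω)} {G' : Subgroup (Equiv.Perm Ω')} (e : Ω ≃ Ω')
    (hG : ∀ g ∈ G, e.permCongr g ∈ G') (hG' : ∀ g ∈ G', e.symm.permCongr g ∈ G) {A : Set Ω}
    (h : MinG G A) : MinG G' (e '' A) := by
  obtain ⟨h1, h2, h3⟩ := h
  refine ⟨goodSet_map e hG h1, h2.image _, fun B hB hBn hBA => ?_⟩
  have h4 := h3 (e.symm '' B) (goodSet_map e.symm hG' hB) (hBn.image _) (by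
    rintro _ ⟨y, hy, rfl⟩
    obtain ⟨x, hx, rfl⟩ := hBA hy
    rwa [Equiv.symm_apply_apply])
  rw [← h4, ← image_comp]
  simp

end sets

/-! ### renaming of blocks -/

section rename

theorem itl_cons {K V S : Type} {ι : S → Type} [Finite K] [inst : DecidableEq S]
    (p : ∀ s, Ultrafilter (ι s → V)) (f : (∀ s, ι s → V) → K) (s : S) (l : List S)
    (x : ∀ s, ι s → V) :
    itl p f (s :: l) x = lim (p s) fun y => itl p f l (Function.update x s y) := by
  have h : inst = fun a b => Classical.propDecidable (a = b) := Subsingleton.elim _ _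
  subst h
  rfl

variable {r : ℕ} {K V : Type} [Finite K] {n : ℕ → ℕ}

/-- renaming of the blocks with the same size -/
def sg (ρ : ℕ → Equiv.Perm ℕ) (s : ℕ × ℕ) : ℕ × ℕ := (ρ s.2 s.1, s.2)

theorem sg_inj (ρ : ℕ → Equiv.Perm ℕ) : Injective (sg ρ) := by
  rintro ⟨i, k⟩ ⟨j, l⟩ h
  simp only [sg, Prod.mk.injEq] at h
  obtain ⟨h1, rfl⟩ := h
  rw [(ρ k).injective h1]

theorem itl_rename (p : ∀ k, Ultrafilter (Fin (n k) → V)) (ρ : ℕ → Equiv.Perm ℕ)
    (f : (∀ s : ℕ × ℕ, Fin (n s.2) → V) → K) (l : List (ℕ × ℕ)) :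
    ∀ x : (∀ s : ℕ × ℕ, Fin (n s.2) → V),
      itl (ι := fun s : ℕ × ℕ => Fin (n s.2)) (fun s => p s.2) (fun x => f fun s => x (sg ρ s))
        (l.map (sg ρ)) x =
      itl (ι := fun s : ℕ × ℕ => Fin (n s.2)) (fun s => p s.2) f l fun s => x (sg ρ s) := by
  classical
  induction l with
  | nil => intro x; rfl
  | cons s l ih =>
    intro x
    rw [List.map_cons, itl_cons]
    refine Eq.trans ?_ (itl_cons (ι := fun s : ℕ × ℕ => Fin (n s.2)) (fun s => p s.2) f s l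
      fun s => x (sg ρ s)).symm
    show lim (p s.2) (fun y => itl (ι := fun s : ℕ × ℕ => Fin (n s.2)) (fun s => p s.2)
        (fun x => f fun s => x (sg ρ s)) (l.map (sg ρ)) (update x (sg ρ s) y)) =
      lim (p s.2) fun y => itl (ι := fun s : ℕ × ℕ => Fin (n s.2)) (fun s => p s.2) f l
        (update (fun s => x (sg ρ s)) s y)
    congr 1
    funext y
    rw [ih]
    congr 1
    funext t
    by_cases h : t = s
    · subst h
      exact Eq.trans (update_self (sg ρ t) y x)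
        (update_self (β := fun s : ℕ × ℕ => Fin (n s.2) → V) t y fun s => x (sg ρ s)).symm
    · exact Eq.trans (update_of_ne (fun h' => h (sg_inj ρ h')) y x)
        (update_of_ne (β := fun s : ℕ × ℕ => Fin (n s.2) → V) h y fun s => x (sg ρ s)).symm

/-- the action on the points -/
def actP (V : Type) (n : ℕ → ℕ) (ρ : ℕ → Equiv.Perm ℕ) :
    V ⊕ (Σ s : ℕ × ℕ, Fin (n s.2)) → V ⊕ (Σ s : ℕ × ℕ, Fin (n s.2)) :=
  Sum.map id fun w => ⟨sg ρ w.1, w.2⟩

theorem actP_act (V : Type) (n : ℕ → ℕ) (ρ ρ' : ℕ → Equiv.Perm ℕ) (h : ∀ k, ρ k * ρ' k = 1)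
    (w : V ⊕ (Σ s : ℕ × ℕ, Fin (n s.2))) : actP V n ρ (actP V n ρ' w) = w := by
  rcases w with a | ⟨⟨i, k⟩, j⟩
  · rfl
  · have h1 : ρ k (ρ' k i) = i := by
      rw [← Equiv.Perm.mul_apply, h]
      rfl
    show Sum.inr (⟨(ρ k (ρ' k i), k), j⟩ : Σ s : ℕ × ℕ, Fin (n s.2)) = Sum.inr ⟨(i, k), j⟩
    rw [h1]

variable {M : St r K V} {p : ∀ k, Ultrafilter (Fin (n k) → V)}
  {W : St r K (V ⊕ (Σ s : ℕ × ℕ, Fin (n s.2)))}

/-- the evaluation of the product -/
def Ev (M : St r K V) (p : ∀ k, Ultrafilter (Fin (n k) → V))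
    (W : St r K (V ⊕ (Σ s : ℕ × ℕ, Fin (n s.2)))) : Prop :=
  ∀ (z : Fin r → V ⊕ (Σ s : ℕ × ℕ, Fin (n s.2))) (l : List (ℕ × ℕ)), l.Nodup →
    (∀ i w, z i = Sum.inr w → w.1 ∈ l) → ∀ x0 : (∀ s : ℕ × ℕ, Fin (n s.2) → V),
    W z = itl (ι := fun s : ℕ × ℕ => Fin (n s.2)) (fun s => p s.2) (fun x => M (subs z x)) l x0

theorem exists_list (z : Fin r → V ⊕ (Σ s : ℕ × ℕ, Fin (n s.2))) :
    ∃ l : List (ℕ × ℕ), l.Nodup ∧ ∀ i w, z i = Sum.inr w → w.1 ∈ l := by
  classical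
  refine ⟨(Finset.univ.image fun i : Fin r => Sum.elim (fun _ => (0, 0)) Sigma.fst (z i)).toList,
    Finset.nodup_toList _, fun i w h => ?_⟩
  rw [Finset.mem_toList, Finset.mem_image]
  exact ⟨i, Finset.mem_univ i, by rw [h]; rfl⟩

theorem W_act [Nonempty V] (hW : Ev M p W) (ρ : ℕ → Equiv.Perm ℕ)
    (z : Fin r → V ⊕ (Σ s : ℕ × ℕ, Fin (n s.2))) : W (actP V n ρ ∘ z) = W z := by
  classical
  obtain ⟨l, hl, hz⟩ := exists_list z
  have v0 : V := Classical.arbitrary V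
  have h1 := hW (actP V n ρ ∘ z) (l.map (sg ρ)) (hl.map (sg_inj ρ)) (by
    intro i w hw
    rw [comp_apply] at hw
    rcases hzi : z i with a | w'
    · rw [hzi] at hw
      simp [actP] at hw
    · rw [hzi] at hw
      have hw' : (⟨sg ρ w'.1, w'.2⟩ : Σ s : ℕ × ℕ, Fin (n s.2)) = w := Sum.inr_injective hw
      rw [← hw']
      exact List.mem_map.2 ⟨w'.1, hz i w' hzi, rfl⟩) fun _ _ => v0
  have h2 : (fun x : (∀ s : ℕ × ℕ, Fin (n s.2) → V) => M (subs (actP V n ρ ∘ z) x)) =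
      fun x => (fun x' : (∀ s : ℕ × ℕ, Fin (n s.2) → V) => M (subs z x')) fun s => x (sg ρ s) := by
    funext x
    show M (subs (actP V n ρ ∘ z) x) = M (subs z fun s => x (sg ρ s))
    congr 1
    funext i
    show Sum.elim id (fun w : (Σ s : ℕ × ℕ, Fin (n s.2)) => x w.1 w.2) (actP V n ρ (z i)) =
      Sum.elim id (fun w : (Σ s : ℕ × ℕ, Fin (n s.2)) => x (sg ρ w.1) w.2) (z i)
    rcases z i with a | w
    · rfl
    · rfl
  rw [h1, h2, itl_rename p ρ (fun x' => M (subs z x')) l]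
  exact (hW z l hl hz fun _ _ => v0).symm

end rename

/-! ### the structure on a part of the blocks -/

section part

variable {r : ℕ} {K V : Type} [Finite K] {n : ℕ → ℕ}

/-- the points of `F` and of the blocks `(i, k)`, `k ∈ κ` -/
def AA (F : Set V) (n : ℕ → ℕ) (κ : Set ℕ) : Set (V ⊕ (Σ s : ℕ × ℕ, Fin (n s.2))) :=
  {w | (∃ a ∈ F, w = Sum.inl a) ∨ ∃ v : (Σ s : ℕ × ℕ, Fin (n s.2)), w = Sum.inr v ∧ v.1.2 ∈ κ}

/-- the named points -/
def FF (F : Set V) (n : ℕ → ℕ) (κ : Set ℕ) : Set (AA F n κ) := {w | ∃ a ∈ F, w.1 = Sum.inl a}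

/-- the induced structure -/
def NN (F : Set V) (κ : Set ℕ) (W : St r K (V ⊕ (Σ s : ℕ × ℕ, Fin (n s.2)))) : St r K (AA F n κ) :=
  fun x => W fun i => (x i).1

variable {F : Set V} {κ : Set ℕ} {M : St r K V} {p : ∀ k, Ultrafilter (Fin (n k) → V)}
  {W : St r K (V ⊕ (Σ s : ℕ × ℕ, Fin (n s.2)))}

theorem actP_mem (ρ : ℕ → Equiv.Perm ℕ) {w : V ⊕ (Σ s : ℕ × ℕ, Fin (n s.2))} (h : w ∈ AA F n κ) :
    actP V n ρ w ∈ AA F n κ := by
  rcases h with ⟨a, ha, rfl⟩ | ⟨v, rfl, hv⟩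
  · exact Or.inl ⟨a, ha, rfl⟩
  · exact Or.inr ⟨⟨sg ρ v.1, v.2⟩, rfl, hv⟩

/-- the action on the part -/
def actE (F : Set V) (n : ℕ → ℕ) (κ : Set ℕ) (ρ : ℕ → Equiv.Perm ℕ) : Equiv.Perm (AA F n κ) where
  toFun w := ⟨actP V n ρ w.1, actP_mem ρ w.2⟩
  invFun w := ⟨actP V n (fun k => (ρ k)⁻¹) w.1, actP_mem _ w.2⟩
  left_inv w := Subtype.ext (actP_act V n _ _ (fun k => inv_mul_cancel (ρ k)) w.1)
  right_inv w := Subtype.ext (actP_act V n _ _ (fun k => mul_inv_cancel (ρ k)) w.1)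

theorem actE_mem [Nonempty V] (hW : Ev M p W) (ρ : ℕ → Equiv.Perm ℕ) :
    actE F n κ ρ ∈ Aut (NN F κ W) (FF F n κ) := by
  rw [mem_aut]
  refine ⟨fun x => W_act hW ρ fun i => (x i).1, ?_⟩
  rintro w ⟨a, ha, h⟩
  apply Subtype.ext
  show actP V n ρ w.1 = w.1
  rw [h]
  rfl

/-- the tuple of a block -/
def bl (F : Set V) (n : ℕ → ℕ) {κ : Set ℕ} (i : ℕ) {k : ℕ} (hk : k ∈ κ) (j : Fin (n k)) :
    AA F n κ :=
  ⟨Sum.inr ⟨(i, k), j⟩, Or.inr ⟨⟨(i, k), j⟩, rfl, hk⟩⟩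

theorem bl_inj (i : ℕ) {k : ℕ} (hk : k ∈ κ) : Injective (bl F n i hk) := by
  intro j j' h
  have h1 := Sum.inr_injective (congrArg Subtype.val h)
  simpa using h1

theorem bl_ne {i i' : ℕ} (h : i ≠ i') {k : ℕ} (hk : k ∈ κ) (j j' : Fin (n k)) :
    bl F n i hk j ≠ bl F n i' hk j' := by
  intro h'
  have h1 := congrArg Sigma.fst (Sum.inr_injective (congrArg Subtype.val h'))
  exact h (congrArg Prod.fst h1)

theorem sw_bl [Nonempty V] (hW : Ev M p W) {i i' : ℕ} {k : ℕ} (hk : k ∈ κ) :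
    Sw (Aut (NN F κ W) (FF F n κ)) (bl F n i hk) (bl F n i' hk) := by
  classical
  refine ⟨actE F n κ fun l => if l = k then Equiv.swap i i' else 1, actE_mem hW _, fun j => ?_,
    fun j => ?_, fun x hx hx' => ?_⟩
  · apply Subtype.ext
    show Sum.inr (⟨((if k = k then Equiv.swap i i' else 1) i, k), j⟩ :
      Σ s : ℕ × ℕ, Fin (n s.2)) = Sum.inr ⟨(i', k), j⟩
    rw [if_pos rfl, Equiv.swap_apply_left]
  · apply Subtype.ext
    show Sum.inr (⟨((if k = k then Equiv.swap i i' else 1) i', k), j⟩ :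
      Σ s : ℕ × ℕ, Fin (n s.2)) = Sum.inr ⟨(i, k), j⟩
    rw [if_pos rfl, Equiv.swap_apply_right]
  · obtain ⟨w, hw⟩ := x
    apply Subtype.ext
    rcases w with a | ⟨⟨l, m⟩, j⟩
    · rfl
    · show Sum.inr (⟨((if m = k then Equiv.swap i i' else 1) l, m), j⟩ :
        Σ s : ℕ × ℕ, Fin (n s.2)) = Sum.inr ⟨(l, m), j⟩
      by_cases hm : m = k
      · subst hm
        have h1 : l ≠ i := by
          rintro rfl
          exact hx j rfl
        have h2 : l ≠ i' := by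
          rintro rfl
          exact hx' j rfl
        rw [if_pos rfl, Equiv.swap_apply_of_ne_of_ne h1 h2]
      · rw [if_neg hm]
        rfl

theorem good_bl [Nonempty V] (hW : Ev M p W) (i : ℕ) {k : ℕ} (hk : k ∈ κ) :
    Good (Aut (NN F κ W) (FF F n κ)) (bl F n i hk) := by
  refine ⟨bl_inj i hk, fun Z => ?_⟩
  set N : ℕ := Z.sup (fun z => Sum.elim (fun _ => 0) (fun w => w.1.1) z.1) + i + 1 with hN
  have hNi : i ≠ N := by omega
  refine ⟨bl F n N hk, fun j hj => ?_, fun j j' => bl_ne hNi hk j j', sw_bl hW hk⟩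
  have h1 : N ≤ Z.sup (fun z => Sum.elim (fun _ => 0) (fun w => w.1.1) z.1) :=
    Finset.le_sup (f := fun z : AA F n κ => Sum.elim (fun _ => 0) (fun w => w.1.1) z.1) hj
  omega

/-- the blocks are minimal -/
theorem min_bl [Nonempty V] (hINT : S_INT) (hW : Ev M p W) (hC : ∀ k, Conn M F (p k)) (i : ℕ) {k : ℕ}
    (hk : k ∈ κ) {B : Set (AA F n κ)} (hB : GoodSet (Aut (NN F κ W) (FF F n κ)) B)
    (hBn : B.Nonempty) (hBA : B ⊆ range (bl F n i hk)) : B = range (bl F n i hk) := by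
  classical
  by_contra hne
  obtain ⟨m, b0, hb0, rfl⟩ := hB
  obtain ⟨j1, hj1⟩ : ∃ j1, bl F n i hk j1 ∉ range b0 := by
    by_contra h
    push Not at h
    exact hne (hBA.antisymm (by rintro _ ⟨j, rfl⟩; exact h j))
  obtain ⟨_, k0, rfl⟩ := hBn
  obtain ⟨j0, hj0⟩ := hBA ⟨k0, rfl⟩
  have hii : i ≠ i + 1 := by omega
  set I : Set (Fin (n k)) := {j | ∃ k', bl F n i hk j = b0 k'} with hI
  obtain ⟨⟨g, hg, h1, -, h3⟩, -⟩ := hINT (AA F n κ) (Fin (n k)) (Fin m)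
    (Aut (NN F κ W) (FF F n κ)) (closed_aut _ _) (bl F n i hk) (bl F n (i + 1) hk) b0
    (good_bl hW i hk) hb0 (fun j j' => bl_ne hii hk j j') (sw_bl hW hk) I (fun j => Iff.rfl)
  obtain ⟨z, hz, hne'⟩ := hC k I ⟨j0, k0, hj0⟩ ⟨j1, fun ⟨k', h⟩ => hj1 ⟨k', h.symm⟩⟩
  apply hne'
  -- the term with the variables in the block
  have hzF : ∀ a v, z a = Sum.inl v → v ∈ F := hz
  have v0 : V := Classical.arbitrary V
  let z1 : Fin r → AA F n κ := fun a =>
    ⟨Sum.map id (fun j => (⟨(i, k), j⟩ : Σ s : ℕ × ℕ, Fin (n s.2))) (z a), by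
      rcases h : z a with v | j
      · exact Or.inl ⟨v, hzF a v h, rfl⟩
      · exact Or.inr ⟨⟨(i, k), j⟩, rfl, hk⟩⟩
  have e1 : NN F κ W z1 = lim (p k) fun x => M (sub z x) := by
    have h := hW (fun a => (z1 a).1) [(i, k)] (List.nodup_singleton _) (by
      intro a w hw
      have hw1 : Sum.map id (fun j => (⟨(i, k), j⟩ : Σ s : ℕ × ℕ, Fin (n s.2))) (z a) =
        Sum.inr w := hw
      rcases h : z a with v | j
      · rw [h] at hw1; simp at hw1
      · rw [h] at hw1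
        have hw2 := Sum.inr_injective hw1
        rw [← hw2]
        exact List.mem_singleton.2 rfl) fun _ _ => v0
    show W (fun a => (z1 a).1) = _
    rw [h, itl_cons]
    show lim (p k) (fun y => M (subs (fun a => (z1 a).1)
      (update (fun _ _ => v0) ((i, k) : ℕ × ℕ) y))) = _
    congr 1
    funext y
    congr 1
    funext a
    show Sum.elim id (fun w : (Σ s : ℕ × ℕ, Fin (n s.2)) =>
        update (β := fun s : ℕ × ℕ => Fin (n s.2) → V) (fun _ _ => v0) ((i, k) : ℕ × ℕ) y w.1 w.2)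
        (Sum.map id (fun j => (⟨(i, k), j⟩ : Σ s : ℕ × ℕ, Fin (n s.2))) (z a)) =
      Sum.elim id y (z a)
    rcases z a with v | j
    · rfl
    · show update (β := fun s : ℕ × ℕ => Fin (n s.2) → V) (fun _ _ => v0) ((i, k) : ℕ × ℕ) y
        (i, k) j = y j
      rw [update_self]
  -- the image under the partial exchange
  have e2 : ∀ a, (g (z1 a)).1 = Sum.map id (fun j =>
      (if j ∈ I then ⟨(i + 1, k), j⟩ else ⟨(i, k), j⟩ : Σ s : ℕ × ℕ, Fin (n s.2))) (z a) := by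
    intro a
    rcases h : z a with v | j
    · have hF : z1 a ∈ FF F n κ := ⟨v, hzF a v h, by
        show Sum.map id (fun j => (⟨(i, k), j⟩ : Σ s : ℕ × ℕ, Fin (n s.2))) (z a) = Sum.inl v
        rw [h]; rfl⟩
      rw [hg.2 _ hF]
      show Sum.map id (fun j => (⟨(i, k), j⟩ : Σ s : ℕ × ℕ, Fin (n s.2))) (z a) = _
      rw [h]
      rfl
    · have hz1 : z1 a = bl F n i hk j := by
        apply Subtype.ext
        show Sum.map id (fun j => (⟨(i, k), j⟩ : Σ s : ℕ × ℕ, Fin (n s.2))) (z a) = _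
        rw [h]
        rfl
      rw [hz1]
      by_cases hj : j ∈ I
      · have := h1 ⟨j, hj⟩
        show (g (bl F n i hk j)).1 = Sum.inr (if j ∈ I then ⟨(i + 1, k), j⟩ else ⟨(i, k), j⟩ :
          Σ s : ℕ × ℕ, Fin (n s.2))
        rw [if_pos hj]
        exact congrArg Subtype.val this
      · have := h3 (bl F n i hk j) (fun j' hj' => hj (by
          rw [bl_inj i hk hj']; exact j'.2)) (fun j' => bl_ne hii hk j j')
        show (g (bl F n i hk j)).1 = Sum.inr (if j ∈ I then ⟨(i + 1, k), j⟩ else ⟨(i, k), j⟩ :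
          Σ s : ℕ × ℕ, Fin (n s.2))
        rw [if_neg hj]
        exact congrArg Subtype.val this
  have e3 : NN F κ W (g ∘ z1) = lim (p k) fun x => lim (p k) fun x' =>
      M (sub z fun j => if j ∈ I then x j else x' j) := by
    have h := hW (fun a => ((g ∘ z1) a).1) [(i + 1, k), (i, k)] (by simp) (by
      intro a w hw
      have hw1 := (e2 a).symm.trans hw
      rcases h : z a with v | j
      · rw [h] at hw1; simp at hw1
      · rw [h] at hw1
        have hw2 := Sum.inr_injective hw1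
        rw [← hw2]
        show (if j ∈ I then (⟨(i + 1, k), j⟩ : Σ s : ℕ × ℕ, Fin (n s.2)) else ⟨(i, k), j⟩).1 ∈
          [(i + 1, k), (i, k)]
        by_cases hj : j ∈ I
        · rw [if_pos hj]; simp
        · rw [if_neg hj]; simp) fun _ _ => v0
    show W (fun a => ((g ∘ z1) a).1) = _
    rw [h, itl_cons]
    simp only [itl_cons]
    show lim (p k) (fun x => lim (p k) fun y => M (subs (fun a => ((g ∘ z1) a).1)
      (update (update (fun _ _ => v0) ((i + 1, k) : ℕ × ℕ) x) ((i, k) : ℕ × ℕ) y))) = _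
    congr 1
    funext x
    congr 1
    funext y
    congr 1
    funext a
    show Sum.elim id (fun w : (Σ s : ℕ × ℕ, Fin (n s.2)) =>
        update (β := fun s : ℕ × ℕ => Fin (n s.2) → V)
          (update (β := fun s : ℕ × ℕ => Fin (n s.2) → V) (fun _ _ => v0) ((i + 1, k) : ℕ × ℕ) x)
          ((i, k) : ℕ × ℕ) y w.1 w.2) ((g (z1 a)).1) =
      Sum.elim id (fun j => if j ∈ I then x j else y j) (z a)
    rw [e2 a]
    rcases z a with v | j
    · rfl
    · show (fun w : (Σ s : ℕ × ℕ, Fin (n s.2)) =>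
        update (β := fun s : ℕ × ℕ => Fin (n s.2) → V)
          (update (β := fun s : ℕ × ℕ => Fin (n s.2) → V) (fun _ _ => v0) ((i + 1, k) : ℕ × ℕ) x)
          ((i, k) : ℕ × ℕ) y w.1 w.2)
          (if j ∈ I then ⟨(i + 1, k), j⟩ else ⟨(i, k), j⟩ : Σ s : ℕ × ℕ, Fin (n s.2)) =
          if j ∈ I then x j else y j
      by_cases hj : j ∈ I
      · rw [if_pos hj, if_pos hj]
        show update (β := fun s : ℕ × ℕ => Fin (n s.2) → V)
          (update (β := fun s : ℕ × ℕ => Fin (n s.2) → V) (fun _ _ => v0) ((i + 1, k) : ℕ × ℕ) x)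
          ((i, k) : ℕ × ℕ) y (i + 1, k) j = x j
        rw [update_of_ne (by simp), update_self]
      · rw [if_neg hj, if_neg hj]
        show update (β := fun s : ℕ × ℕ => Fin (n s.2) → V)
          (update (β := fun s : ℕ × ℕ => Fin (n s.2) → V) (fun _ _ => v0) ((i + 1, k) : ℕ × ℕ) x)
          ((i, k) : ℕ × ℕ) y (i, k) j = y j
        rw [update_self]
  rw [← e1, ← hg.1 z1, e3]
  congr 1
  funext x
  congr 1
  funext y
  congr 1
  funext a
  congr 1
  funext j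
  by_cases hj : j ∈ I
  · rw [if_pos hj, if_pos hj]
  · rw [if_neg hj, if_neg hj]

theorem minG_bl [Nonempty V] (hINT : S_INT) (hW : Ev M p W) (hC : ∀ k, Conn M F (p k)) (i : ℕ) {k : ℕ}
    (hk : k ∈ κ) (hn : 0 < n k) : MinG (Aut (NN F κ W) (FF F n κ)) (range (bl F n i hk)) :=
  ⟨goodSet_of (good_bl hW i hk), ⟨_, ⟨0, hn⟩, rfl⟩, fun _ h1 h2 h3 => min_bl hINT hW hC i hk h1 h2 h3⟩

/-- the minimal good sets are the blocks -/
theorem eq_bl [Nonempty V] (hINT : S_INT) (hW : Ev M p W) (hC : ∀ k, Conn M F (p k))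
    {A : Set (AA F n κ)} (hA : MinG (Aut (NN F κ W) (FF F n κ)) A) :
    ∃ (i k : ℕ) (hk : k ∈ κ), A = range (bl F n i hk) := by
  classical
  obtain ⟨⟨m, b0, hb0, rfl⟩, ⟨_, a0, rfl⟩, hmin⟩ := hA
  have hnF : b0 a0 ∉ FF F n κ := by
    intro h
    obtain ⟨b', -, h2, g, hg, h3, -, -⟩ := hb0.2 ∅
    have h4 := hg.2 _ h
    rw [h3] at h4
    exact h2 a0 a0 h4.symm
  obtain ⟨i, k, hk, j, hj⟩ : ∃ (i k : ℕ) (hk : k ∈ κ) (j : Fin (n k)), b0 a0 = bl F n i hk j := by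
    rcases (b0 a0).2 with ⟨a, ha, h⟩ | ⟨⟨⟨i, k⟩, j⟩, h, hk⟩
    · exact absurd ⟨a, ha, h⟩ hnF
    · exact ⟨i, k, hk, j, Subtype.ext h⟩
  refine ⟨i, k, hk, ?_⟩
  set I : Set (Fin m) := {a | ∃ j, b0 a = bl F n i hk j} with hI
  have hgood : Good (Aut (NN F κ W) (FF F n κ)) (fun a : I => b0 a) := by
    refine ⟨hb0.1.comp Subtype.val_injective, fun Z => ?_⟩
    obtain ⟨b', h1, h2, h3⟩ := hb0.2 Z
    refine ⟨fun a => b' a, fun a => h1 a, fun a a' => h2 a a', ?_⟩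
    exact (hINT (AA F n κ) (Fin m) (Fin (n k)) (Aut (NN F κ W) (FF F n κ)) (closed_aut _ _) b0 b'
      (bl F n i hk) hb0 (good_bl hW i hk) h2 h3 I (fun a => Iff.rfl)).1
  have h1 := hmin _ (goodSet_of hgood) ⟨_, ⟨a0, j, hj⟩, rfl⟩ (by rintro _ ⟨a, rfl⟩; exact ⟨a, rfl⟩)
  apply min_bl hINT hW hC i hk ⟨m, b0, hb0, rfl⟩ ⟨_, a0, rfl⟩
  rw [← h1]
  rintro _ ⟨⟨a, j', hj'⟩, rfl⟩
  exact ⟨j', hj'.symm⟩

theorem subset_of_iso [Nonempty V] (hINT : S_INT) (hW : Ev M p W) (hC : ∀ k, Conn M F (p k))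
    (hn : StrictMono n) (hn0 : ∀ k, 0 < n k) {κ κ' : Set ℕ}
    {f : V ⊕ (Σ s : ℕ × ℕ, Fin (n s.2)) → V ⊕ (Σ s : ℕ × ℕ, Fin (n s.2))}
    (hf : BijOn f (AA F n κ) (AA F n κ')) (hfF : ∀ a ∈ F, f (Sum.inl a) = Sum.inl a)
    (hfW : ∀ x : Fin r → V ⊕ (Σ s : ℕ × ℕ, Fin (n s.2)), (∀ i, x i ∈ AA F n κ) →
      W (f ∘ x) = W x) : κ ⊆ κ' := by
  intro k hk
  let e : AA F n κ ≃ AA F n κ' := hf.equiv f
  have he : ∀ w, (e w).1 = f w.1 := fun w => rfl
  have heN : ∀ x : Fin r → AA F n κ, NN F κ' W (e ∘ x) = NN F κ W x := fun x =>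
    hfW (fun i => (x i).1) fun i => (x i).2
  have heN' : ∀ y : Fin r → AA F n κ', NN F κ W (e.symm ∘ y) = NN F κ' W y := by
    intro y
    rw [← heN]
    congr 1
    funext i
    simp
  have hs1 : ∀ w, w ∈ FF F n κ → e w ∈ FF F n κ' := by
    rintro w ⟨a, ha, h⟩
    exact ⟨a, ha, by rw [he, h, hfF a ha]⟩
  have hs2 : ∀ w, e w ∈ FF F n κ' → w ∈ FF F n κ := by
    rintro w ⟨a, ha, h⟩
    have h1 : (Sum.inl a : V ⊕ (Σ s : ℕ × ℕ, Fin (n s.2))) ∈ AA F n κ := Or.inl ⟨a, ha, rfl⟩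
    have h2 : e w = e ⟨Sum.inl a, h1⟩ := by
      apply Subtype.ext
      rw [h, he, hfF a ha]
    have h3 := e.injective h2
    exact ⟨a, ha, by rw [h3]⟩
  have h1 := minG_bl hINT hW hC 0 hk (hn0 k)
  have h2 := minG_map e (fun g hg => aut_conj e heN hs2 hg)
    (fun g hg => aut_conj e.symm heN' (fun w hw => by
      have := hs1 _ hw
      rwa [Equiv.apply_symm_apply] at this) hg) h1
  obtain ⟨i, k', hk', h3⟩ := eq_bl hINT hW hC h2
  have h4 : (e '' range (bl F n 0 hk)).ncard = n k := by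
    rw [ncard_image_of_injective _ e.injective, ← Nat.card_coe_set_eq,
      Nat.card_congr (Equiv.ofInjective _ (bl_inj 0 hk)).symm, Nat.card_eq_fintype_card,
      Fintype.card_fin]
  have h5 : (range (bl F n i hk')).ncard = n k' := by
    rw [← Nat.card_coe_set_eq,
      Nat.card_congr (Equiv.ofInjective _ (bl_inj i hk')).symm, Nat.card_eq_fintype_card,
      Fintype.card_fin]
  rw [h3, h5] at h4
  rw [← hn.injective h4]
  exact hk'

end part

/-- the sizes which are coded -/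
def Kc (c : ℕ → Bool) : Set ℕ := {k | ∃ m, k = 2 * m + (c m).toNat}

theorem Kc_inj {c d : ℕ → Bool} (h : Kc c ⊆ Kc d) : c = d := by
  funext m
  obtain ⟨m', h1⟩ := h ⟨m, rfl⟩
  have h2 := Bool.toNat_le (c m)
  have h3 := Bool.toNat_le (d m')
  have h4 : m = m' := by omega
  subst h4
  have h5 : (c m).toNat = (d m).toNat := by omega
  revert h5
  cases c m <;> cases d m <;> simp

theorem mem_Kc {c : ℕ → Bool} {k : ℕ} : k ∈ Kc c ↔ c (k / 2) = decide (k % 2 = 1) := by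
  constructor
  · rintro ⟨m, rfl⟩
    have h2 := Bool.toNat_le (c m)
    have h3 : (2 * m + (c m).toNat) / 2 = m := by omega
    have h4 : (2 * m + (c m).toNat) % 2 = (c m).toNat := by omega
    rw [h3, h4]
    cases c m <;> simp
  · intro h
    refine ⟨k / 2, ?_⟩
    rw [h]
    by_cases h1 : k % 2 = 1
    · simp [h1]; omega
    · simp [h1]; omega

theorem s_BND (hSYM : S_SYM) (hINT : S_INT) (hPERF : S_PERF) : S_BND := by
  classical
  intro r K _ hcomm V _ _ M hM F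
  by_contra hcon
  push Not at hcon
  have hinf : {n : ℕ | ∃ p : Ultrafilter (Fin n → V), Free p ∧ Conn M (F : Set V) p}.Infinite := by
    rw [Set.infinite_iff_exists_gt]
    intro b
    obtain ⟨n, p, h1, h2, h3⟩ := hcon b
    exact ⟨n, ⟨p, h1, h2⟩, h3⟩
  set n : ℕ → ℕ := fun k => Nat.nth (fun n => n ∈ {n : ℕ | ∃ p : Ultrafilter (Fin n → V),
    Free p ∧ Conn M (F : Set V) p}) (k + 1) with hn
  have hmono : StrictMono n := fun a b hab => Nat.nth_strictMono hinf (Nat.succ_lt_succ hab)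
  have hpos : ∀ k, 0 < n k := fun k =>
    (Nat.zero_le _).trans_lt (Nat.nth_strictMono hinf (Nat.succ_pos k))
  have hex : ∀ k, ∃ p : Ultrafilter (Fin (n k) → V), Free p ∧ Conn M (F : Set V) p := fun k =>
    Nat.nth_mem_of_infinite hinf (k + 1)
  choose p hp hC using hex
  obtain ⟨-, P, hP, hev⟩ := hSYM r K hcomm V M hM (ℕ × ℕ) (fun s => Fin (n s.2))
    (fun s => p s.2) (fun s => hp s.2)
  set W : St r K (V ⊕ (Σ s : ℕ × ℕ, Fin (n s.2))) := Ext M P with hWdef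
  have hW : Ev M p W := hev
  refine hM (hPERF r K V _ M W (loc_ext hP) ⟨F.image Sum.inl, fun c => AA (F : Set V) n (Kc c),
    ?_, ?_, ?_, ?_⟩)
  · intro w
    rcases w with a | v
    · have h : {c : ℕ → Bool | (Sum.inl a : V ⊕ (Σ s : ℕ × ℕ, Fin (n s.2))) ∈
          AA (F : Set V) n (Kc c)} = {c | a ∈ F} := by
        ext c
        simp [AA]
      rw [h]
      by_cases ha : a ∈ F
      · simp only [ha, ofPred_true]; exact isClopen_univ
      · simp only [ha, ofPred_false]; exact isClopen_empty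
    · have h : {c : ℕ → Bool | (Sum.inr v : V ⊕ (Σ s : ℕ × ℕ, Fin (n s.2))) ∈
          AA (F : Set V) n (Kc c)} = (fun c => c (v.1.2 / 2)) ⁻¹' {decide (v.1.2 % 2 = 1)} := by
        ext c
        rw [mem_preimage, mem_singleton_iff, ← mem_Kc]
        constructor
        · rintro (⟨a, -, h⟩ | ⟨v', h, hv'⟩)
          · simp at h
          · rw [Sum.inr_injective h]; exact hv'
        · intro h
          exact Or.inr ⟨v, rfl, h⟩
      rw [h]
      exact (isClopen_discrete _).preimage (continuous_apply _)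
  · intro c w hw
    rw [Finset.mem_coe, Finset.mem_image] at hw
    obtain ⟨a, ha, rfl⟩ := hw
    exact Or.inl ⟨a, ha, rfl⟩
  · intro c
    have h1 : (2 * 0 + (c 0).toNat) ∈ Kc c := ⟨0, rfl⟩
    refine Set.infinite_of_injective_forall_mem (f := fun i : ℕ =>
      (Sum.inr ⟨(i, 2 * 0 + (c 0).toNat), ⟨0, hpos _⟩⟩ : V ⊕ (Σ s : ℕ × ℕ, Fin (n s.2)))) ?_ ?_
    · intro i j h
      have h1 := congrArg Sigma.fst (Sum.inr_injective h)
      exact congrArg Prod.fst h1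
    · intro i
      exact Or.inr ⟨_, rfl, h1⟩
  · intro c d f hf hfF hfW
    apply Kc_inj
    exact subset_of_iso hINT hW hC hmono hpos hf (fun a ha => hfF _ (Finset.mem_image_of_mem _ ha)) hfW

end Pool.Agent.L7h46.UN
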